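import Mathlib

namespace Pool.Agent.H.MP_41a254_co

open Set Metric Filter Topology Pointwise RealInnerProductSpace

abbrev E := EuclideanSpace ℝ (Fin 3)

/-- Some plane has `A` strictly on one side and `B` strictly on the other. -/
def Sep (A B : Set E) : Prop :=
  ∃ u : E, u ≠ 0 ∧ ∃ τ : ℝ, (∀ x ∈ A, ⟪u, x⟫ < τ) ∧ ∀ x ∈ B, τ < ⟪u, x⟫

/-- The plane `⟪u, x⟫ = τ` touches `K`, and `K` lies on one side of it. -/
def Supp (K : Set E) (u : E) (τ : ℝ) : Prop :=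
  (∃ w ∈ K, ⟪u, w⟫ = τ) ∧ ((∀ x ∈ K, ⟪u, x⟫ ≤ τ) ∨ ∀ x ∈ K, τ ≤ ⟪u, x⟫)

/-- The members `K i`, `i ∈ F`, are in convex position. -/
def ConvPos {ι : Type} (K : ι → Set E) (F : Set ι) : Prop :=
  ∀ i ∈ F, ∃ O, IsOpen O ∧ (O ∩ frontier (K i)).Nonempty ∧
    O ∩ frontier (K i) ⊆ frontier (convexHull ℝ (⋃ j ∈ F, K j))

def Gap (A B : Set E) : Prop :=
  ∃ u : E, u ≠ 0 ∧ ∃ a b : ℝ, a < b ∧ (∀ x ∈ A, ⟪u, x⟫ ≤ a) ∧ ∀ x ∈ B, b ≤ ⟪u, x⟫

theorem Gap.thick {A B : Set E} (h : Gap A B) :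
    ∀ᶠ ε in 𝓝[>] (0 : ℝ), Gap (A + closedBall 0 ε) (B + closedBall 0 ε) := by
  obtain ⟨u, u0, a, b, ab, hA, hB⟩ := h
  have : ∀ᶠ ε in 𝓝 (0 : ℝ), a + ‖u‖ * ε < b - ‖u‖ * ε :=
    ContinuousAt.eventually_lt (by fun_prop) (by fun_prop) (by simpa)
  filter_upwards [nhdsWithin_le_nhds this] with ε h
  have k (e : E) (he : e ∈ closedBall (0 : E) ε) : |⟪u, e⟫| ≤ ‖u‖ * ε :=
    (abs_real_inner_le_norm u e).trans
      (mul_le_mul_of_nonneg_left (mem_closedBall_zero_iff.mp he) (norm_nonneg u))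
  refine ⟨u, u0, _, _, h, ?_, ?_⟩ <;> rintro _ ⟨x, hx, e, he, rfl⟩ <;> rw [inner_add_right]
  · linarith [hA x hx, (abs_le.mp (k e he)).2]
  · linarith [hB x hx, (abs_le.mp (k e he)).1]

theorem Gap.sep {A B A' B' : Set E} (h : Gap A B) (x : A' ⊆ A) (y : B' ⊆ B) : Sep A' B' := by
  obtain ⟨u, u0, a, b, ab, hA, hB⟩ := h
  exact ⟨u, u0, (a + b) / 2, fun p hp => by linarith [hA p (x hp)],
    fun p hp => by linarith [hB p (y hp)]⟩

theorem rep (f : StrongDual ℝ E) : ∃ u : E, ∀ x, f x = ⟪u, x⟫ :=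
  ⟨_, fun _ => InnerProductSpace.toDual_symm_apply.symm⟩

theorem unit {u : E} (h : u ≠ 0) : ∃ v : E, ∃ c : ℝ, 0 < c ∧ ‖v‖ = 1 ∧ ∀ x, ⟪u, x⟫ = c * ⟪v, x⟫ :=
  ⟨‖u‖⁻¹ • u, ‖u‖, norm_pos_iff.mpr h, norm_smul_inv_norm h, fun x => by
    rw [real_inner_smul_left, mul_inv_cancel_left₀ (norm_ne_zero_iff.mpr h)]⟩

theorem front {X : Set E} {v y : E} (v0 : v ≠ 0) (hy : y ∈ X) (h : ∀ x ∈ X, ⟪v, x⟫ ≤ ⟪v, y⟫) :
    y ∈ frontier X := by
  refine ⟨subset_closure hy, fun hi => ?_⟩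
  have : ∀ᶠ t in 𝓝[>] (0 : ℝ), y + t • v ∈ X := nhdsWithin_le_nhds
    ((show ContinuousAt (fun t : ℝ => y + t • v) 0 by fun_prop).preimage_mem_nhds
      (by simpa using mem_interior_iff_mem_nhds.mp hi))
  obtain ⟨t, a, b⟩ := (this.and self_mem_nhdsWithin).exists
  have := h _ a
  rw [inner_add_right, real_inner_smul_right] at this
  nlinarith [mul_pos b (real_inner_self_pos.mpr v0)]

theorem cp {L Y : Set E} {r : ℝ} (r0 : 0 < r) (cL : IsCompact L) (vL : Convex ℝ L)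
    (bY : Bornology.IsBounded Y) {x : E} (hx : x ∈ L) (h : Gap Y {x}) :
    ∃ O, IsOpen O ∧ (O ∩ frontier (L + closedBall 0 r)).Nonempty ∧
      O ∩ frontier (L + closedBall 0 r) ⊆ frontier (convexHull ℝ (L + closedBall 0 r ∪ Y)) := by
  obtain ⟨u', u0, a, b, ab, hA, hB⟩ := h
  obtain ⟨u, c, c0, u1, hu⟩ := unit u0
  obtain ⟨x1, m1, mx⟩ := cL.exists_isMaxOn ⟨x, hx⟩ (f := fun x => ⟪u, x⟫) (by fun_prop)
  obtain ⟨γ, γ0, hγ⟩ : ∃ γ > 0, ∀ z ∈ Y, ⟪u, z⟫ + γ ≤ ⟪u, x1⟫ := ⟨(b - a) / c,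
    div_pos (by linarith) c0, fun z hz => by
      have := hA z hz
      have := hB x rfl
      have : ⟪u, x⟫ ≤ ⟪u, x1⟫ := mx hx
      rw [hu] at *
      rw [add_div' _ _ _ c0.ne', div_le_iff₀ c0]
      nlinarith⟩
  obtain ⟨R, R0, hR⟩ := bY.subset_closedBall_lt 0 (x1 + r • u)
  have mem (v : E) (h : ‖v‖ = 1) : x1 + r • v ∈ L + closedBall 0 r :=
    add_mem_add m1 (by simp [norm_smul, h, abs_of_pos r0])
  have uu : ⟪u, u⟫ = 1 := by rw [real_inner_self_eq_norm_sq, u1, one_pow]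
  obtain ⟨η, ⟨e1, e2⟩, e0⟩ : ∃ η : ℝ, (2 * η * R ^ 2 < r * (γ / 2) ^ 2 ∧ η < γ / 2) ∧ 0 < η :=
    (Eventually.and (f := 𝓝[>] 0) (nhdsWithin_le_nhds (Eventually.and
      (ContinuousAt.eventually_lt (by fun_prop) (by fun_prop) (by simp; positivity))
      (eventually_lt_nhds (by positivity)))) self_mem_nhdsWithin).exists
  refine ⟨ball (x1 + r • u) η, isOpen_ball, ⟨_, mem_ball_self e0, front (v := u)
    (by rintro rfl; simp at u1) (mem u u1) ?_⟩, fun y ⟨y1, y2⟩ => ?_⟩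
  · rintro _ ⟨z, hz, e, he, rfl⟩
    have : ⟪u, z⟫ ≤ ⟪u, x1⟫ := mx hz
    have := real_inner_le_norm u e
    rw [inner_add_right, inner_add_right, real_inner_smul_right, uu]
    nlinarith [mem_closedBall_zero_iff.mp he]
  · obtain ⟨f, f0, hf⟩ := geometric_hahn_banach_of_nonempty_interior_point
      (vL.add (convex_closedBall 0 r)) y2.2 ⟨x + 0, mem_interior.mpr ⟨L + ball 0 r,
        add_subset_add_left ball_subset_closedBall, isOpen_ball.add_left,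
        add_mem_add hx (mem_ball_self r0)⟩⟩
    obtain ⟨v', hv'⟩ := rep f
    obtain ⟨v, d, d0, v1, hv⟩ := unit (u := v') fun c => f0 (by ext; simp [hv', c])
    have hf (z) (hz : z ∈ L + closedBall 0 r) : ⟪v, z⟫ ≤ ⟪v, y⟫ := by
      simpa only [hv', hv, mul_le_mul_iff_right₀ d0] using hf z hz
    refine front (v := v) (by rintro rfl; simp at v1) (subset_convexHull _ _
      (.inl ((cL.add (isCompact_closedBall 0 r)).isClosed.frontier_subset y2)))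
      (convexHull_min (t := {z | ⟪v, z⟫ ≤ ⟪v, y⟫}) (union_subset hf fun z hz => ?_)
        (convex_halfSpace_le (innerₗ E v).isLinear _))
    have vv : ⟪v, v⟫ = 1 := by rw [real_inner_self_eq_norm_sq, v1, one_pow]
    have p1 := abs_le.mp ((abs_real_inner_le_norm v (y - (x1 + r • u))).trans
      (show _ ≤ η by rw [v1, one_mul]; exact (mem_ball_iff_norm.mp y1).le))
    have p2 := hf _ (mem v v1)
    have p3 : ‖v - u‖ ^ 2 = 2 - 2 * ⟪v, u⟫ := by rw [norm_sub_sq_real, v1, u1]; ring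
    have p4 := (real_inner_le_norm (v - u) (z - (x1 + r • u))).trans
      (mul_le_mul_of_nonneg_left (mem_closedBall_iff_norm.mp (hR hz)) (norm_nonneg _))
    have p5 := hγ z hz
    simp only [inner_sub_right, inner_add_right, real_inner_smul_right, inner_sub_left, uu, vv]
      at p1 p2 p4
    have : ‖v - u‖ * R ≤ γ / 2 := by
      refine (pow_le_pow_iff_left₀ (by positivity) (by positivity) two_ne_zero).mp
        (le_of_mul_le_mul_left ?_ r0)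
      rw [mul_pow, p3]
      nlinarith [mul_le_mul_of_nonneg_right (show r * (2 - 2 * ⟪v, u⟫) ≤ 2 * η by linarith)
        (sq_nonneg R)]
    change ⟪v, z⟫ ≤ ⟪v, y⟫
    linarith

theorem near {L : Set E} (cL : IsCompact L) {r ε τ : ℝ} (r0 : 0 ≤ r) (h : r ≤ ε) {u : E}
    (u1 : ‖u‖ = 1) (s : Supp (L + closedBall 0 r) u τ) :
    ∃ w, Supp L u ⟪u, w⟫ ∧ w ∈ L ∧ |⟪u, w⟫ - τ| ≤ ε := by
  obtain ⟨⟨_, ⟨x, hx, e, he, rfl⟩, rfl⟩, s⟩ := s
  have k : |⟪u, e⟫| ≤ ε := (abs_real_inner_le_norm u e).trans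
    (by rw [u1, one_mul]; exact (mem_closedBall_zero_iff.mp he).trans h)
  have m (w) (hw : w ∈ L) : w ∈ L + closedBall 0 r := ⟨w, hw, 0, mem_closedBall_self r0, add_zero w⟩
  rw [abs_le] at k
  simp only [inner_add_right] at s ⊢
  rcases s with s | s
  · obtain ⟨w, a, b⟩ := cL.exists_isMaxOn ⟨x, hx⟩ (f := fun x => ⟪u, x⟫) (by fun_prop)
    have : ⟪u, x⟫ ≤ ⟪u, w⟫ := b hx
    exact ⟨w, ⟨⟨w, a, rfl⟩, .inl b⟩, a, abs_le.mpr ⟨by linarith, by linarith [s w (m w a)]⟩⟩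
  · obtain ⟨w, a, b⟩ := cL.exists_isMinOn ⟨x, hx⟩ (f := fun x => ⟪u, x⟫) (by fun_prop)
    have : ⟪u, w⟫ ≤ ⟪u, x⟫ := b hx
    exact ⟨w, ⟨⟨w, a, rfl⟩, .inr b⟩, a, abs_le.mpr ⟨by linarith [s w (m w a)], by linarith⟩⟩

theorem nd (L : Fin 4 → Set E) (cL : ∀ j, IsCompact (L j))
    (h : ∀ u ≠ 0, ∀ τ, ¬∀ j, Supp (L j) u τ) :
    ∀ᶠ ε in 𝓝[>] (0 : ℝ), ∀ r : Fin 4 → ℝ, (∀ j, 0 ≤ r j ∧ r j ≤ ε) →
      ∀ u ≠ 0, ∀ τ, ¬∀ j, Supp (L j + closedBall 0 (r j)) u τ := by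
  let S : Set (E × (Fin 4 → E)) := sphere 0 1 ×ˢ univ.pi L ∩
    {p | ∀ j, (∀ x ∈ L j, ⟪p.1, x⟫ ≤ ⟪p.1, p.2 j⟫) ∨ ∀ x ∈ L j, ⟪p.1, p.2 j⟫ ≤ ⟪p.1, x⟫}
  have cS : IsCompact S := ((isCompact_sphere _ _).prod (isCompact_univ_pi cL)).inter_right (by
    simp only [ofPred_forall, ofPred_or]
    refine isClosed_iInter fun j => .union ?_ ?_ <;>
      exact isClosed_iInter fun x => isClosed_iInter fun _ => isClosed_le (by fun_prop) (by fun_prop))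
  obtain ⟨δ, d0, hd⟩ := cS.exists_forall_le' (a := 0)
    (f := fun p => ∑ j, |⟪p.1, p.2 j⟫ - ⟪p.1, p.2 0⟫|) (by fun_prop) fun p hp => by
      refine (Finset.sum_nonneg fun _ _ => abs_nonneg _).lt_of_ne' fun c => ?_
      refine h p.1 (fun z => by simpa [z] using hp.1.1) ⟪p.1, p.2 0⟫ fun j => ?_
      have := (Finset.sum_eq_zero_iff_of_nonneg fun _ _ => abs_nonneg _).mp c j (Finset.mem_univ j)
      rw [← sub_eq_zero.mp (abs_eq_zero.mp this)]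
      exact ⟨⟨_, hp.1.2 j trivial, rfl⟩, hp.2 j⟩
  filter_upwards [nhdsWithin_le_nhds (eventually_lt_nhds (show 0 < δ / 8 by positivity))]
    with ε he r hr u' u0 τ hs
  obtain ⟨u, c, c0, u1, hu⟩ := unit u0
  choose w a b d using fun j => near (cL j) (hr j).1 (hr j).2 u1 (τ := τ / c) (by
    simpa only [Supp, hu, le_div_iff₀' c0, div_le_iff₀' c0, eq_div_iff c0.ne', mul_comm _ c]
      using hs j)
  have := hd (u, w) ⟨⟨by simpa, fun j _ => b j⟩, fun j => (a j).2⟩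
  have := Finset.sum_le_card_nsmul Finset.univ (fun j => |⟪u, w j⟫ - ⟪u, w 0⟫|) (2 * ε) fun j _ => by
    have := abs_le.mp (d j)
    have := abs_le.mp (d 0)
    exact abs_le.mpr ⟨by linarith, by linarith⟩
  simp at this
  linarith

end Pool.Agent.H.MP_41a254_co
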