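import Pool.Agent.H.MP_41a254_co.A

namespace Pool.Agent.H.MP_41a254_co

open Set Metric Filter Topology Pointwise RealInnerProductSpace

theorem inn (u x : E) : ⟪u, x⟫ = u 0 * x 0 + u 1 * x 1 + u 2 * x 2 := by
  simp [PiLp.inner_apply, Fin.sum_univ_three, mul_comm]

theorem Gap.mono {A B A' B' : Set E} (h : Gap A B) (x : A' ⊆ A) (y : B' ⊆ B) : Gap A' B' :=
  let ⟨u, u0, a, b, ab, hA, hB⟩ := h
  ⟨u, u0, a, b, ab, fun p hp => hA p (x hp), fun p hp => hB p (y hp)⟩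

theorem quad {a b c α β τ : ℝ} (ab : a ≠ b) (ac : a ≠ c) (bc : b ≠ c) (x : α * a + β * a ^ 2 = τ)
    (y : α * b + β * b ^ 2 = τ) (z : α * c + β * c ^ 2 = τ) : α = 0 ∧ β = 0 := by
  have h : β * ((a - b) * (a - c) * (b - c)) = 0 := by
    linear_combination (b - c) * x - (a - c) * y + (a - b) * z
  have : β = 0 := by simpa [sub_eq_zero, ab, ac, bc] using h
  have h : α * (a - b) = 0 := by linear_combination x - y - (a ^ 2 - b ^ 2) * this
  exact ⟨by simpa [sub_eq_zero, ab] using h, this⟩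

section
variable {n : ℕ} {M : ℝ} (hM : 4 * (n : ℝ) ^ 3 + 8 ≤ M)
include hM

theorem dom {a d : ℕ} (h : a < d) {V : ℝ} (hV : |V| ≤ n ^ 3) :
    4 * |(-M) ^ a * V| < |(-M) ^ d| := by
  have : (0 : ℝ) ≤ n ^ 3 := by positivity
  have M1 : 1 ≤ M := by linarith
  have := pow_le_pow_right₀ M1 (show a + 1 ≤ d from h)
  rw [abs_mul, abs_pow, abs_pow, abs_neg, abs_of_pos (by linarith : 0 < M)]
  rw [pow_succ] at this
  nlinarith [pow_pos (by linarith : 0 < M) a]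

omit hM in
theorem df {a b : ℕ} (ha : a ≤ n) (hb : b ≤ n) : |(a : ℝ) - b| ≤ n := by
  have : (a : ℝ) ≤ n := by exact_mod_cast ha
  have : (b : ℝ) ≤ n := by exact_mod_cast hb
  exact abs_le.mpr ⟨by linarith [a.cast_nonneg (α := ℝ)], by linarith [b.cast_nonneg (α := ℝ)]⟩

omit hM in
theorem df3 {a b c d e f : ℕ} (ha : a ≤ n) (hb : b ≤ n) (hc : c ≤ n) (hd : d ≤ n) (he : e ≤ n)
    (hf : f ≤ n) : |((a : ℝ) - b) * (c - d) * (e - f)| ≤ n ^ 3 := by
  rw [abs_mul, abs_mul, pow_three']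
  gcongr
  exacts [df ha hb, df hc hd, df he hf]

omit hM in
theorem d1 {a b : ℕ} (h : a ≠ b) : 1 ≤ |(a : ℝ) - b| := by
  exact_mod_cast Int.one_le_abs (sub_ne_zero.mpr (mod_cast h : (a : ℤ) ≠ b))

theorem four' {a b c d : ℕ} (ab : a ≠ b) (ac : a ≠ c) (bc : b ≠ c) (ad : a < d) (bd : b < d)
    (cd : c < d) (hd : d ≤ n) {α β γ τ : ℝ} (g : γ ≠ 0)
    (h : ∀ t ∈ [a, b, c, d], α * t + β * t ^ 2 + γ * (-M) ^ t = τ) : False := by
  simp only [List.forall_mem_cons] at h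
  obtain ⟨x, y, z, w, -⟩ := h
  have e : (-M) ^ d * ((a - b) * (a - c) * (b - c)) = (-M) ^ a * ((d - b) * (d - c) * (b - c)) -
      (-M) ^ b * ((d - a) * (d - c) * (a - c)) + (-M) ^ c * ((d - a) * (d - b) * (a - b)) :=
    mul_left_cancel₀ g (by
      linear_combination ((a - b) * (a - c) * (b - c) : ℝ) * w - ((d - b) * (d - c) * (b - c) : ℝ) * x +
        ((d - a) * (d - c) * (a - c) : ℝ) * y - ((d - a) * (d - b) * (a - b) : ℝ) * z)
  have e1 := dom hM ad (df3 (a := d) (b := b) (c := d) (d := c) (e := b) (f := c) hd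
    (by omega) hd (by omega) (by omega) (by omega))
  have e2 := dom hM bd (df3 (a := d) (b := a) (c := d) (d := c) (e := a) (f := c) hd
    (by omega) hd (by omega) (by omega) (by omega))
  have e3 := dom hM cd (df3 (a := d) (b := a) (c := d) (d := b) (e := a) (f := b) hd
    (by omega) hd (by omega) (by omega) (by omega))
  have : |(-M) ^ d| ≤ |(-M) ^ d * ((a - b) * (a - c) * (b - c))| := by
    simp only [abs_mul]
    exact le_mul_of_one_le_right (abs_nonneg _)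
      (one_le_mul_of_one_le_of_one_le (one_le_mul_of_one_le_of_one_le (d1 ab) (d1 ac)) (d1 bc))
  rw [e] at this
  linarith [this.trans ((abs_add_le _ _).trans (add_le_add_left (abs_sub _ _) _)),
    abs_nonneg ((-M) ^ d)]

theorem four {a b c d : ℕ} (ab : a ≠ b) (ac : a ≠ c) (bc : b ≠ c) (ad : a ≠ d) (bd : b ≠ d)
    (cd : c ≠ d) (ha : a ≤ n) (hb : b ≤ n) (hc : c ≤ n) (hd : d ≤ n) {α β γ τ : ℝ} (g : γ ≠ 0)
    (h : ∀ t ∈ [a, b, c, d], α * t + β * t ^ 2 + γ * (-M) ^ t = τ) : False := by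
  obtain ⟨x, y, z⟩ | ⟨x, y, z⟩ | ⟨x, y, z⟩ | ⟨x, y, z⟩ : (a < d ∧ b < d ∧ c < d) ∨
    (a < c ∧ b < c ∧ d < c) ∨ (a < b ∧ c < b ∧ d < b) ∨ (b < a ∧ c < a ∧ d < a) := by omega
  · exact four' hM ab ac bc x y z hd g h
  · exact four' hM ab ad bd x y z hc g fun t ht => h t (by grind)
  · exact four' hM ac ad cd x y z hb g fun t ht => h t (by grind)
  · exact four' hM bc bd cd x y z ha g fun t ht => h t (by grind)

theorem three' {a b d : ℕ} (ab : a ≠ b) (ad : a < d) (bd : b < d) (hd : d ≤ n) {α γ τ : ℝ}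
    (g : γ ≠ 0) (h : ∀ t ∈ [a, b, d], α * t + γ * (-M) ^ t = τ) : False := by
  simp only [List.forall_mem_cons] at h
  obtain ⟨x, y, w, -⟩ := h
  have e : (-M) ^ d * (a - b) = (-M) ^ a * (d - b) - (-M) ^ b * (d - a) := mul_left_cancel₀ g (by
    linear_combination (a - b : ℝ) * w - (d - b : ℝ) * x + (d - a : ℝ) * y)
  have n3 : (n : ℝ) ≤ n ^ 3 := by exact_mod_cast Nat.le_self_pow three_ne_zero n
  have e1 := dom hM ad ((df hd (show b ≤ n by omega)).trans n3)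
  have e2 := dom hM bd ((df hd (show a ≤ n by omega)).trans n3)
  have : |(-M) ^ d| ≤ |(-M) ^ d * (a - b)| := by
    rw [abs_mul]
    exact le_mul_of_one_le_right (abs_nonneg _) (d1 ab)
  rw [e] at this
  linarith [this.trans (abs_sub _ _), abs_nonneg ((-M) ^ d)]

theorem three {a b c : ℕ} (ab : a ≠ b) (ac : a ≠ c) (bc : b ≠ c) (ha : a ≤ n) (hb : b ≤ n)
    (hc : c ≤ n) {α γ τ : ℝ} (g : γ ≠ 0)
    (h : ∀ t ∈ [a, b, c], α * t + γ * (-M) ^ t = τ) : False := by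
  obtain ⟨x, y⟩ | ⟨x, y⟩ | ⟨x, y⟩ : (a < c ∧ b < c) ∨ (a < b ∧ c < b) ∨ (b < a ∧ c < a) := by omega
  · exact three' hM ab x y hc g h
  · exact three' hM ac x y hb g fun t ht => h t (by grind)
  · exact three' hM bc x y ha g fun t ht => h t (by grind)

end

noncomputable def P (M : ℝ) (t : ℕ) : E := !₂[t, t ^ 2, (-M) ^ t]

noncomputable def Q (M s : ℝ) (t : ℕ) : E :=
  !₂[t + 1 + 1 / (M + 1), (t + 1 + 1 / (M + 1)) ^ 2 + 1 / (M + 1) * (1 - 1 / (M + 1)) + s, 0]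

def D (n : ℕ) (M s : ℝ) : Set E := convexHull ℝ (Q M s '' Icc 1 (n - 4))

theorem D_shift {n : ℕ} {M s : ℝ} (s' : ℝ) {w : E} (h : w ∈ D n M s) :
    w + !₂[0, s' - s, 0] ∈ D n M s' := by
  refine convexHull_min (t := (· + !₂[0, s' - s, 0]) ⁻¹' D n M s') ?_
    ((convex_convexHull _ _).translate_preimage_left _) h
  rintro _ ⟨t, ht, rfl⟩
  refine subset_convexHull _ _ ⟨t, ht, ?_⟩
  ext i
  fin_cases i <;> simp [Q]

theorem D_le {n : ℕ} {M s : ℝ} (hM : 0 ≤ M) {w : E} (h : w ∈ D n M s) (c : ℝ) :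
    w 2 = 0 ∧ 2 * c * w 0 - w 1 ≤ c ^ 2 - s := by
  have := convexHull_min (t := {w : E | ⟪!₂[0, 0, 1], w⟫ = 0} ∩ {w | ⟪!₂[2 * c, -1, 0], w⟫ ≤ c ^ 2 - s})
    ?_ ((convex_hyperplane (innerₗ E _).isLinear _).inter
      (convex_halfSpace_le (innerₗ E _).isLinear _)) h
  · simpa [inn, sub_eq_add_neg] using this
  · rintro _ ⟨t, -, rfl⟩
    have : 0 ≤ 1 / (M + 1) * (1 - 1 / (M + 1)) :=
      mul_nonneg (by positivity) (sub_nonneg.mpr (div_le_one_of_le₀ (by linarith) (by linarith)))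
    refine ⟨by simp [inn, Q], ?_⟩
    simp only [mem_ofPred_eq, inn, Q, Matrix.cons_val]
    nlinarith [sq_nonneg (c - (t + 1 + 1 / (M + 1)))]

theorem D_sub {n : ℕ} {M s : ℝ} (hM : 0 ≤ M) (s0 : 0 ≤ s) (s1 : s ≤ 1) :
    D n M s ⊆ convexHull ℝ (P M '' Icc 1 (n - 1)) := by
  refine convexHull_min ?_ (convex_convexHull _ _)
  rintro _ ⟨t, ⟨a, b⟩, rfl⟩
  have t0 : 0 ≤ 1 / (M + 1) := by positivity
  have t1 : 0 ≤ 1 - 1 / (M + 1) := sub_nonneg.mpr (div_le_one_of_le₀ (by linarith) (by linarith))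
  have : 0 ≤ 1 - s := by linarith
  refine mem_convexHull_of_exists_fintype ![s / 2 * (1 - 1 / (M + 1)),
    s / 2 * (1 / (M + 1)) + (1 - s) * (1 - 1 / (M + 1)),
    (1 - s) * (1 / (M + 1)) + s / 2 * (1 - 1 / (M + 1)), s / 2 * (1 / (M + 1))]
    (fun j : Fin 4 => P M (t + j)) (fun j => ?_) ?_ (fun j => ⟨_, ⟨by omega, by omega⟩, rfl⟩) ?_
  · revert j
    simp only [Fin.forall_fin_succ, Matrix.cons_val_zero, Matrix.cons_val_succ]
    exact ⟨by positivity, by positivity, by positivity, by positivity, fun i => i.elim0⟩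
  · simp only [Fin.sum_univ_four, Matrix.cons_val]
    ring
  · ext i
    fin_cases i <;> simp [Fin.sum_univ_four, P, Q] <;> field_simp <;> ring

theorem generic (n : ℕ) {M : ℝ} (hM : 4 * (n : ℝ) ^ 3 + 8 ≤ M) : ∃ s ∈ Ioo (1 / 4 : ℝ) (1 / 2),
    ∀ a b c : Fin n, a ≠ b → a ≠ c → b ≠ c → ∀ u : E, u ≠ 0 → ∀ τ, ⟪u, P M a⟫ = τ → ⟪u, P M b⟫ = τ →
      ⟪u, P M c⟫ = τ → ¬Supp (D n M s) u τ := by
  let B : Fin n × Fin n × Fin n × Bool → Set ℝ := fun ⟨a, b, c, σ⟩ => {s | a ≠ b ∧ a ≠ c ∧ b ≠ c ∧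
    ∃ u : E, ∃ τ, 0 < (if σ then 1 else -1) * u 2 ∧ ⟪u, P M a⟫ = τ ∧ ⟪u, P M b⟫ = τ ∧
      ⟪u, P M c⟫ = τ ∧ (∃ w ∈ D n M s, ⟪u, w⟫ = τ) ∧ ∀ x ∈ D n M s, ⟪u, x⟫ ≤ τ}
  have ne {a b : Fin n} (h : a ≠ b) : ((a : ℕ) : ℝ) ≠ (b : ℕ) := by exact_mod_cast Fin.val_ne_of_ne h
  have fin : (⋃ i, B i).Finite := finite_iUnion fun ⟨a, b, c, σ⟩ => Subsingleton.finite <| by
    rintro s ⟨ab, ac, bc, u, τ, p, x, y, z, ⟨w, w1, w2⟩, m⟩
      s' ⟨-, -, -, u', τ', p', x', y', z', ⟨w', w1', w2'⟩, m'⟩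
    have e := m' _ (D_shift s' w1)
    have e' := m _ (D_shift s w1')
    simp only [inn, P, Matrix.cons_val, PiLp.add_apply, add_zero] at *
    have u1 : u 1 ≠ 0 := fun h => three hM (Fin.val_ne_of_ne ab) (Fin.val_ne_of_ne ac)
      (Fin.val_ne_of_ne bc) a.2.le b.2.le c.2.le (α := u 0) (γ := u 2) (τ := τ)
      (fun h => by simp [h] at p) (by simp [h] at x y z; simp [*])
    obtain ⟨q0, q1⟩ := quad (α := u' 2 * u 0 - u 2 * u' 0) (β := u' 2 * u 1 - u 2 * u' 1)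
      (τ := u' 2 * τ - u 2 * τ') (ne ab) (ne ac) (ne bc) (by linear_combination u' 2 * x - u 2 * x')
      (by linear_combination u' 2 * y - u 2 * y') (by linear_combination u' 2 * z - u 2 * z')
    have u2 : u 2 ≠ 0 := fun h => by simp [h] at p
    obtain ⟨l, hl⟩ : ∃ l, u' 2 = l * u 2 := ⟨u' 2 / u 2, by field_simp⟩
    have l0 : 0 < l := by
      rw [hl, mul_left_comm] at p'
      exact (mul_pos_iff_of_pos_right p).mp p'
    have k0 : u' 0 = l * u 0 := mul_left_cancel₀ u2 (by linear_combination u 0 * hl - q0)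
    have k1 : u' 1 = l * u 1 := mul_left_cancel₀ u2 (by linear_combination u 1 * hl - q1)
    have k2 : τ' = l * τ := by rw [← x, ← x', k0, k1, hl]; ring
    rw [k0, k1, k2, hl] at e w2'
    have e' := mul_le_mul_of_nonneg_left e' l0.le
    have : l * u 1 * (s' - s) = 0 :=
      le_antisymm (by linear_combination e - l * w2) (by linear_combination e' - w2')
    simpa [l0.ne', u1, sub_eq_zero, eq_comm] using this
  obtain ⟨s, hs, nb⟩ := (Ioo_infinite (show (1 / 4 : ℝ) < 1 / 2 by norm_num)).exists_notMem_finite fin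
  refine ⟨s, hs, fun a b c ab ac bc u u0 τ x y z ⟨⟨w, w1, w2⟩, m⟩ => nb ?_⟩
  have u2 : u 2 ≠ 0 := fun h => u0 <| by
    simp only [inn, P, Matrix.cons_val, h, zero_mul, add_zero] at x y z
    obtain ⟨p, q⟩ := quad (ne ab) (ne ac) (ne bc) x y z
    ext i
    fin_cases i <;> simp [*]
  rcases m with m | m
  · refine mem_iUnion.mpr ⟨(a, b, c, decide (0 < u 2)), ab, ac, bc, u, τ, ?_, x, y, z, ⟨w, w1, w2⟩, m⟩
    rcases u2.lt_or_gt with h | h <;> simp [h, h.not_gt]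
  · refine mem_iUnion.mpr ⟨(a, b, c, decide (u 2 < 0)), ab, ac, bc, -u, -τ, ?_, by simpa, by simpa,
      by simpa, ⟨w, w1, by simpa⟩, by simpa⟩
    rcases u2.lt_or_gt with h | h <;> simp [h, h.not_gt]

end Pool.Agent.H.MP_41a254_co
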